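import Pool.Agent.TH6.CR.Int
import Pool.Agent.Q181.LR.Vc

set_option autoImplicit false
set_option linter.unusedSectionVars false

/-! A contraction of norm at most `K` of an acyclic complex bounds the Laplacian from below by
`1 / K ^ 2`. -/

namespace Pool.Agent.Q251.LG

section abs

variable {V : Type*} [AddCommGroup V] [Module ℝ V] (ip : V → V → ℝ)
  (hadd : ∀ x y z, ip (x + y) z = ip x z + ip y z) (hcomm : ∀ x y, ip x y = ip y x)
  (hsmul : ∀ (r : ℝ) x y, ip (r • x) y = r * ip x y) (hpos : ∀ x, 0 ≤ ip x x)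

include hadd hcomm

theorem add_right (x y z : V) : ip x (y + z) = ip x y + ip x z := by
  rw [hcomm, hadd, hcomm y, hcomm z]

theorem sq_add (x y : V) : ip (x + y) (x + y) = ip x x + 2 * ip x y + ip y y := by
  rw [hadd, add_right ip hadd hcomm, add_right ip hadd hcomm, hcomm y x]
  ring

include hsmul

theorem smul_right (r : ℝ) (x y : V) : ip x (r • y) = r * ip x y := by
  rw [hcomm, hsmul, hcomm]

include hpos

theorem cs (x y : V) (t : ℝ) (ht : 0 < t) : 2 * ip x y ≤ t * ip x x + t⁻¹ * ip y y := by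
  have h1 := hpos (t • x + (-1 : ℝ) • y)
  rw [sq_add ip hadd hcomm, hsmul, hsmul, hsmul, smul_right ip hadd hcomm hsmul,
    smul_right ip hadd hcomm hsmul, smul_right ip hadd hcomm hsmul] at h1
  have h2 : t * (t * ip x x) + 2 * (t * (-1 * ip x y)) + -1 * (-1 * ip y y) =
      t * (t * ip x x + t⁻¹ * ip y y - 2 * ip x y) := by
    field_simp
    ring
  rw [h2] at h1
  have h3 := nonneg_of_mul_nonneg_right h1 ht
  linarith

theorem sq_add_le (x y : V) (t : ℝ) (ht : 0 < t) :
    ip (x + y) (x + y) ≤ (1 + t) * ip x x + (1 + t⁻¹) * ip y y := by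
  rw [sq_add ip hadd hcomm]
  have := cs ip hadd hcomm hsmul hpos x y t ht
  linarith

theorem sub_le (x y : V) (t : ℝ) (ht : 0 < t) :
    ip (x - y) (x - y) ≤ (1 + t) * ip x x + (1 + t⁻¹) * ip y y := by
  have h := sq_add_le ip hadd hcomm hsmul hpos x ((-1 : ℝ) • y) t ht
  rw [hsmul, smul_right ip hadd hcomm hsmul] at h
  rw [neg_one_smul, ← sub_eq_add_neg] at h
  linarith

/-- **The lower bound of the Laplacian.** -/
theorem laplacian (D E T : V →ₗ[ℝ] V) (hadj : ∀ x y, ip (D x) y = ip x (E y))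
    (hDD : ∀ x, D (D x) = 0) (hEE : ∀ x, E (E x) = 0) (hct : ∀ x, T (D x) + D (T x) = x)
    (K : ℝ) (hK : 0 < K) (hT : ∀ x, ip (T x) (T x) ≤ K ^ 2 * ip x x) (M : ℝ) (hM : 0 < M)
    (hS : ∀ x, ip (D x + E x) (D x + E x) ≤ M * ip x x) (x : V) :
    ip x x ≤ K ^ 2 * ip (D x + E x) (D x + E x) := by
  have hadj' : ∀ x y, ip (E x) y = ip x (D y) := fun x y => by rw [hcomm, ← hadj, hcomm]
  have hK2 : 0 < K ^ 2 := by positivity
  have zero_right : ∀ x, ip x 0 = 0 := fun x => by
    have := smul_right ip hadd hcomm hsmul 0 x 0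
    rw [zero_smul, zero_mul] at this
    exact this
  -- the norm of `S x`
  have hSn : ∀ x, ip (D x + E x) (D x + E x) = ip (D x) (D x) + ip (E x) (E x) := by
    intro x
    rw [sq_add ip hadd hcomm, hadj x (E x), hEE, zero_right]
    ring
  -- vectors in the kernel of the adjoint
  have s1 : ∀ b, E b = 0 → ip b b ≤ K ^ 2 * ip (D b) (D b) := by
    intro b hb
    have e1 : ip b b = ip b (T (D b)) := by
      conv_lhs => rw [← hct b]
      rw [hadd, hct b, hadj (T b) b, hb, zero_right, add_zero, hcomm]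
    have e2 := cs ip hadd hcomm hsmul hpos b (T (D b)) 1 one_pos
    rw [← e1, inv_one] at e2
    have e3 := hT (D b)
    linarith
  -- vectors in the kernel
  have s2 : ∀ a, D a = 0 → ip a a ≤ K ^ 2 * ip (E a) (E a) := by
    intro a ha
    have e1 : ip a a = ip (T a) (E a) := by
      conv_lhs => rw [← hct a]
      rw [hadd, hct a, hadj (T a) a, ha, map_zero, hcomm 0 a, zero_right, zero_add]
    have e2 := cs ip hadd hcomm hsmul hpos (E a) (T a) (K ^ 2) hK2
    rw [hcomm (E a), ← e1] at e2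
    have e3 : (K ^ 2)⁻¹ * ip (T a) (T a) ≤ ip a a := by
      calc (K ^ 2)⁻¹ * ip (T a) (T a) ≤ (K ^ 2)⁻¹ * (K ^ 2 * ip a a) :=
            mul_le_mul_of_nonneg_left (hT a) (inv_nonneg.2 hK2.le)
        _ = ip a a := by field_simp
    linarith
  -- the image of the Laplacian
  set S : V →ₗ[ℝ] V := D + E with hSdef
  have hSx : ∀ x, S x = D x + E x := fun x => rfl
  have hSn' : ∀ x, ip (S x) (S x) = ip (D x) (D x) + ip (E x) (E x) := hSn
  have hSS : ∀ y, S (S y) = D (E y) + E (D y) := by
    intro y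
    rw [hSx, hSx, map_add, map_add, hDD, hEE, zero_add, add_zero]
  have hSadj : ∀ x y, ip (S x) y = ip x (S y) := by
    intro x y
    rw [hSx, hSx, hadd, hadj, hadj', add_right ip hadd hcomm, add_comm]
  have s3 : ∀ y, ip (S (S y)) (S (S y)) ≤ K ^ 2 * ip (S (S (S y))) (S (S (S y))) := by
    intro y
    have e1 : ip (S (S y)) (S (S y)) = ip (D (E y)) (D (E y)) + ip (E (D y)) (E (D y)) := by
      rw [hSS, sq_add ip hadd hcomm, hadj (E y) (E (D y)), hEE, zero_right]
      ring
    have e2 : D (S (S y)) = D (E (D y)) := by rw [hSS, map_add, hDD, zero_add]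
    have e3 : E (S (S y)) = E (D (E y)) := by rw [hSS, map_add, hEE, add_zero]
    have e4 := s2 (D (E y)) (hDD _)
    have e5 := s1 (E (D y)) (hEE _)
    rw [hSn' (S (S y)), e2, e3, e1]
    linarith
  -- the weak bound
  have s4 : ∀ x, ip x x ≤ 2 * K ^ 2 * ip (S x) (S x) := by
    intro x
    have e1 : ip x x = ip x (T (D x)) + ip (T x) (E x) := by
      conv_lhs => rw [← hct x]
      rw [hadd, hct x, hadj (T x) x, hcomm (T (D x))]
    have e2 := cs ip hadd hcomm hsmul hpos x (T (D x)) (1 / 2) (by norm_num)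
    have e3 := cs ip hadd hcomm hsmul hpos (E x) (T x) (2 * K ^ 2) (by positivity)
    rw [hcomm (E x)] at e3
    have e4 : (2 * K ^ 2)⁻¹ * ip (T x) (T x) ≤ 1 / 2 * ip x x := by
      calc (2 * K ^ 2)⁻¹ * ip (T x) (T x) ≤ (2 * K ^ 2)⁻¹ * (K ^ 2 * ip x x) :=
            mul_le_mul_of_nonneg_left (hT x) (inv_nonneg.2 (by positivity))
        _ = 1 / 2 * ip x x := by field_simp
    have e5 := hT (D x)
    have e6 : ((1 : ℝ) / 2)⁻¹ = 2 := by norm_num
    rw [e6] at e2
    rw [hSn']
    linarith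
  -- decay
  have s5 : ∀ n : ℕ, ∃ y, ip (x - S (S y)) (x - S (S y)) ≤
      (1 - 1 / (M * (2 * K ^ 2))) ^ n * ip x x := by
    have hq : 0 ≤ 1 - 1 / (M * (2 * K ^ 2)) ∨ ip x x = 0 := by
      by_cases h0 : ip x x = 0
      · exact Or.inr h0
      · left
        have h1 : 0 < ip x x := lt_of_le_of_ne (hpos x) (Ne.symm h0)
        have h2 := s4 x
        have h3 := hS x
        have h4 : ip x x ≤ (M * (2 * K ^ 2)) * ip x x := by
          calc ip x x ≤ 2 * K ^ 2 * ip (S x) (S x) := h2
            _ ≤ 2 * K ^ 2 * (M * ip x x) := mul_le_mul_of_nonneg_left h3 (by positivity)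
            _ = _ := by ring
        have h5 : 1 ≤ M * (2 * K ^ 2) := by
          by_contra h6
          push Not at h6
          nlinarith
        rw [sub_nonneg, div_le_one (by positivity)]
        exact h5
    intro n
    induction n with
    | zero =>
      refine ⟨0, ?_⟩
      rw [map_zero, map_zero, sub_zero, pow_zero, one_mul]
    | succ n ih =>
      obtain ⟨y, hy⟩ := ih
      rcases hq with hq | h0
      · set r := x - S (S y) with hr
        refine ⟨y + M⁻¹ • r, ?_⟩
        have e1 : x - S (S (y + M⁻¹ • r)) = r + (-M⁻¹) • S (S r) := by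
          rw [map_add, map_add, map_smul, map_smul, neg_smul, hr]
          abel
        have e2 : ip r (S (S r)) = ip (S r) (S r) := by rw [← hSadj]
        have e3 : ip (S (S r)) (S (S r)) ≤ M * ip (S r) (S r) := hS (S r)
        have e4 := s4 r
        rw [e1, sq_add ip hadd hcomm, smul_right ip hadd hcomm hsmul,
          smul_right ip hadd hcomm hsmul, hsmul, e2]
        have e5 : -M⁻¹ * (-M⁻¹ * ip (S (S r)) (S (S r))) ≤ M⁻¹ * ip (S r) (S r) := by
          calc -M⁻¹ * (-M⁻¹ * ip (S (S r)) (S (S r)))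
              = (M⁻¹ * M⁻¹) * ip (S (S r)) (S (S r)) := by ring
            _ ≤ (M⁻¹ * M⁻¹) * (M * ip (S r) (S r)) :=
                mul_le_mul_of_nonneg_left e3 (by positivity)
            _ = M⁻¹ * ip (S r) (S r) := by field_simp
        have e6 : 1 / (M * (2 * K ^ 2)) * ip r r ≤ M⁻¹ * ip (S r) (S r) := by
          calc 1 / (M * (2 * K ^ 2)) * ip r r
              ≤ 1 / (M * (2 * K ^ 2)) * (2 * K ^ 2 * ip (S r) (S r)) :=
                mul_le_mul_of_nonneg_left e4 (by positivity)
            _ = M⁻¹ * ip (S r) (S r) := by field_simp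
        have e7 : ip r r + 2 * (-M⁻¹ * ip (S r) (S r)) + -M⁻¹ * (-M⁻¹ * ip (S (S r)) (S (S r)))
            ≤ (1 - 1 / (M * (2 * K ^ 2))) * ip r r := by linarith
        refine e7.trans ((mul_le_mul_of_nonneg_left hy hq).trans (le_of_eq ?_))
        ring
      · refine ⟨0, ?_⟩
        rw [map_zero, map_zero, sub_zero, h0, mul_zero]
  -- approximation
  have s6 : ∀ ε : ℝ, 0 < ε → ∃ y, ip (x - S (S y)) (x - S (S y)) ≤ ε := by
    intro ε hε
    rcases eq_or_lt_of_le (hpos x) with h0 | h0
    · refine ⟨0, ?_⟩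
      rw [map_zero, map_zero, sub_zero, ← h0]
      exact hε.le
    · have hq : |1 - 1 / (M * (2 * K ^ 2))| < 1 ∨ 1 - 1 / (M * (2 * K ^ 2)) < 0 := by
        rcases lt_or_ge (1 - 1 / (M * (2 * K ^ 2))) 0 with h | h
        · exact Or.inr h
        · left
          rw [abs_of_nonneg h]
          have : 0 < 1 / (M * (2 * K ^ 2)) := by positivity
          linarith
      rcases hq with hq | hq
      · have h1 := (tendsto_pow_atTop_nhds_zero_of_abs_lt_one hq).mul_const (ip x x)
        rw [zero_mul] at h1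
        obtain ⟨n, hn⟩ := (h1.eventually (gt_mem_nhds hε)).exists
        obtain ⟨y, hy⟩ := s5 n
        exact ⟨y, hy.trans hn.le⟩
      · obtain ⟨y, hy⟩ := s5 1
        refine ⟨y, hy.trans ?_⟩
        rw [pow_one]
        nlinarith
  have s7 : ∀ t : ℝ, 0 < t → ip x x ≤ (1 + t) ^ 2 * (K ^ 2 * ip (S x) (S x)) := by
    intro t ht
    apply le_of_forall_pos_le_add
    intro δ hδ
    set C := (1 + t) * K ^ 2 * (1 + t⁻¹) * M + (1 + t⁻¹) with hC
    have hCpos : 0 < C := by positivity
    obtain ⟨y, hy⟩ := s6 (δ / C) (by positivity)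
    set r := x - S (S y) with hr
    have e0 : x = S (S y) + r := by rw [hr]; abel
    have e1 := sq_add_le ip hadd hcomm hsmul hpos (S (S y)) r t ht
    rw [← e0] at e1
    have e2 := s3 y
    have e3 : S (S (S y)) = S x - S r := by rw [hr, map_sub]; abel
    have e4 := sub_le ip hadd hcomm hsmul hpos (S x) (S r) t ht
    rw [← e3] at e4
    have e5 : ip (S r) (S r) ≤ M * ip r r := hS r
    have e6 : ip x x ≤ (1 + t) ^ 2 * (K ^ 2 * ip (S x) (S x)) + C * ip r r := by
      calc ip x x ≤ (1 + t) * ip (S (S y)) (S (S y)) + (1 + t⁻¹) * ip r r := e1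
        _ ≤ (1 + t) * (K ^ 2 * ((1 + t) * ip (S x) (S x) + (1 + t⁻¹) * (M * ip r r)))
            + (1 + t⁻¹) * ip r r := by
              have h1 : ip (S (S y)) (S (S y)) ≤
                  K ^ 2 * ((1 + t) * ip (S x) (S x) + (1 + t⁻¹) * (M * ip r r)) := by
                refine e2.trans (mul_le_mul_of_nonneg_left ?_ hK2.le)
                refine e4.trans ?_
                have : (1 + t⁻¹) * ip (S r) (S r) ≤ (1 + t⁻¹) * (M * ip r r) :=
                  mul_le_mul_of_nonneg_left e5 (by positivity)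
                linarith
              have := mul_le_mul_of_nonneg_left h1 (by positivity : 0 ≤ 1 + t)
              linarith
        _ = _ := by rw [hC]; ring
    have e7 : C * ip r r ≤ δ := by
      calc C * ip r r ≤ C * (δ / C) := mul_le_mul_of_nonneg_left hy hCpos.le
        _ = δ := by field_simp
    linarith
  apply le_of_forall_pos_le_add
  intro δ hδ
  set Q := K ^ 2 * ip (S x) (S x) with hQ
  have hQ0 : 0 ≤ Q := mul_nonneg hK2.le (hpos _)
  have h1 := s7 (min 1 (δ / (3 * Q + 1))) (lt_min one_pos (by positivity))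
  set t := min 1 (δ / (3 * Q + 1)) with ht
  have ht1 : t ≤ 1 := min_le_left _ _
  have ht0 : 0 < t := lt_min one_pos (by positivity)
  have ht2 : t * (3 * Q + 1) ≤ δ := by
    have : t ≤ δ / (3 * Q + 1) := min_le_right _ _
    rwa [le_div_iff₀ (by positivity)] at this
  have h2 : (1 + t) ^ 2 * Q ≤ Q + t * (3 * Q) := by
    have : (1 + t) ^ 2 ≤ 1 + 3 * t := by nlinarith
    nlinarith
  have h3 : ip x x ≤ Q + δ := by nlinarith
  exact h3

end abs

open Matrix TH57.Thr TH6.LF

variable {G : Type} [Group G] {ι : Type} [Fintype ι] [DecidableEq ι]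

/-- If `s` is a contraction of norm at most `K` of the complex with the boundary operator `d`, then
`d + d*` is bounded below by `1 / K`. -/
theorem LB_of_ct (d s : Matrix ι ι (MonoidAlgebra ℤ G)) (hd : d * d = 0) (hs : d * s + s * d = 1)
    (K : ℝ) (hK : 0 < K) (hn : NormLE s K) (c : ℝ) (hc : 0 < c) (hdc : NormLE d c) :
    Pool.Agent.Q181.LW.LB (d + adj d) (K ^ 2) := by
  intro x
  have hsym := TH6.CX.norm_sym d hd c hc hdc
  have key := laplacian (V := ι → MonoidAlgebra ℝ G) ip ip_add_left ip_comm ip_smul_left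
    (fun x => by rw [ip_self]; exact normSq_nonneg x)
    ⟨⟨fun x => x ᵥ* toReal d, fun x y => Matrix.add_vecMul _ x y⟩,
      fun r x => Matrix.smul_vecMul _ _ _⟩
    ⟨⟨fun x => x ᵥ* toReal (adj d), fun x y => Matrix.add_vecMul _ x y⟩,
      fun r x => Matrix.smul_vecMul _ _ _⟩
    ⟨⟨fun x => x ᵥ* toReal s, fun x y => Matrix.add_vecMul _ x y⟩,
      fun r x => Matrix.smul_vecMul _ _ _⟩
    (fun x y => by
      change ip (x ᵥ* toReal d) y = ip x (y ᵥ* toReal (adj d))
      rw [ip_vecMul, toReal_adj])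
    (fun x => by
      change (x ᵥ* toReal d) ᵥ* toReal d = 0
      rw [Matrix.vecMul_vecMul, ← toReal_mul, hd, toReal_zero, Matrix.vecMul_zero])
    (fun x => by
      change (x ᵥ* toReal (adj d)) ᵥ* toReal (adj d) = 0
      rw [Matrix.vecMul_vecMul, ← toReal_mul, ← adj_mul, hd, adj_zero, toReal_zero,
        Matrix.vecMul_zero])
    (fun x => by
      change (x ᵥ* toReal d) ᵥ* toReal s + (x ᵥ* toReal s) ᵥ* toReal d = x
      rw [Matrix.vecMul_vecMul, Matrix.vecMul_vecMul, ← Matrix.vecMul_add, ← toReal_mul,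
        ← toReal_mul, ← toReal_add, hs, toReal_one, Matrix.vecMul_one])
    K hK
    (fun x => by
      rw [ip_self, ip_self]
      exact hn x)
    (c ^ 2) (by positivity)
    (fun x => by
      rw [ip_self, ip_self]
      change normSq (x ᵥ* toReal d + x ᵥ* toReal (adj d)) ≤ _
      rw [← Matrix.vecMul_add, ← toReal_add]
      exact hsym x) x
  rw [ip_self, ip_self] at key
  change normSq x ≤ K ^ 2 * normSq (x ᵥ* toReal d + x ᵥ* toReal (adj d)) at key
  rw [← Matrix.vecMul_add, ← toReal_add] at key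
  exact key

end Pool.Agent.Q251.LG
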