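import Pool.Agent.TH6.CR.Int
import Pool.Agent.Q181.LR.Vc

set_option autoImplicit false
set_option linter.unusedSectionVars false

/-! The stabilisers of the components of a square matrix whose nonzero entries change a parity are
virtually cyclic if the norm is at most `3 / √2` plus a number which is exponentially small in half of
the size. -/

namespace Pool.Agent.Q251.LG

open Matrix TH57.Thr TH6.LF TH6.PF SimpleGraph
open Pool.Agent.Q181.LR (stab_vc_of NormLE_adj')
open Pool.Agent.Q181.LW (noTripod_size NormLE_mono)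

section transfer

variable {G : Type} [Group G] {ι κ ι' κ' : Type} (A : Matrix ι κ (MonoidAlgebra ℤ G))
  (A' : Matrix ι' κ' (MonoidAlgebra ℤ G)) (f : Vx G ι κ → Vx G ι' κ')

theorem reach_lift (hadj : ∀ u v, (gr A).Adj u v ↔ (gr A').Adj (f u) (f v))
    (hcl : ∀ u y, (gr A').Adj (f u) y → ∃ v, f v = y) {u : Vx G ι κ} {y : Vx G ι' κ'}
    (h : (gr A').Reachable (f u) y) : ∃ v, f v = y ∧ (gr A).Reachable u v := by
  obtain ⟨w⟩ := h
  generalize hx : f u = x at w
  induction w generalizing u with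
  | nil => exact ⟨u, hx, Reachable.refl _⟩
  | cons hab _ ih =>
    subst hx
    obtain ⟨v, hv⟩ := hcl _ _ hab
    obtain ⟨v', h1, h2⟩ := ih hv
    exact ⟨v', h1, ((hadj u v).2 (by rw [hv]; exact hab)).reachable.trans h2⟩

/-- Stabilisers along an isomorphism onto a union of components. -/
theorem stab_eq (hf : Function.Injective f)
    (hadj : ∀ u v, (gr A).Adj u v ↔ (gr A').Adj (f u) (f v))
    (hcl : ∀ u y, (gr A').Adj (f u) y → ∃ v, f v = y)
    (hmv : ∀ (g : G) u, f (mv g u) = mv g (f u)) (b : Vx G ι κ) : stab A b = stab A' (f b) := by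
  ext g
  rw [mem_stab, mem_stab, ← hmv]
  constructor
  · intro h
    let F : gr A →g gr A' := ⟨f, fun h => (hadj _ _).1 h⟩
    exact h.map F
  · intro h
    obtain ⟨v, h1, h2⟩ := reach_lift A A' f hadj hcl h
    rwa [hf h1] at h2

end transfer

section vc

variable {G : Type} [Group G] {ι κ : Type} [Fintype ι] [Fintype κ] [DecidableEq ι] [DecidableEq κ]

theorem wt_swap (A : Matrix ι κ (MonoidAlgebra ℤ G)) (u v : Vx G ι κ) :
    wt (adj A) u.swap v.swap = wt A u v := by
  have key : ∀ (p : G × ι) (q : G × κ), ((adj A) q.2 p.2).coeff (q.1⁻¹ * p.1) =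
      (A p.2 q.2).coeff (p.1⁻¹ * q.1) := by
    intro p q
    rw [adj_apply, coeff_bar, _root_.mul_inv_rev, inv_inv]
  rcases u with p | q <;> rcases v with p' | q'
  · rfl
  · change (((adj A q'.2 p.2).coeff (q'.1⁻¹ * p.1) : ℤ) : ℝ) = _
    rw [key]
    rfl
  · change (((adj A q.2 p'.2).coeff (q.1⁻¹ * p'.1) : ℤ) : ℝ) = _
    rw [key]
    rfl
  · rfl

theorem vc_min (A : Matrix ι κ (MonoidAlgebra ℤ G))
    (hA : NormLE A (3 / Real.sqrt 2 + (1 / 2) ^ (2 * min (Fintype.card ι) (Fintype.card κ) + 30)))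
    (b : Vx G ι κ) : IsVC (stab A b) := by
  rcases le_total (Fintype.card ι) (Fintype.card κ) with h | h
  · rw [min_eq_left h] at hA
    exact stab_vc_of A b _ (noTripod_size A hA b)
  · rw [min_eq_right h] at hA
    rw [stab_eq A (adj A) Sum.swap Sum.swap_leftInverse.injective
      (fun u v => by rw [gr_adj, gr_adj, wt_swap])
      (fun u y _ => ⟨y.swap, Sum.swap_swap y⟩)
      (fun g u => by rcases u with p | q <;> rfl) b]
    exact stab_vc_of (adj A) _ _ (noTripod_size (adj A) (NormLE_adj' A _ hA) _)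

open Classical in
theorem normLE_sub (A : Matrix ι κ (MonoidAlgebra ℤ G)) (c : ℝ) (hA : NormLE A c) (E : ι → Prop)
    (F : κ → Prop) : NormLE (A.submatrix (Subtype.val : {i // E i} → ι)
      (Subtype.val : {j // F j} → κ)) c := by
  intro x
  let y : ι → MonoidAlgebra ℝ G := fun i => if h : E i then x ⟨i, h⟩ else 0
  have hy1 : ∀ i : {i // E i}, y i.1 = x i := fun i => dif_pos i.2
  have hy2 : ∀ i : {i // ¬ E i}, y i.1 = 0 := fun i => dif_neg i.2
  have h1 : ∀ j : {j // F j}, (x ᵥ* toReal (A.submatrix (Subtype.val : {i // E i} → ι)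
      (Subtype.val : {j // F j} → κ))) j = (y ᵥ* toReal A) j.1 := by
    intro j
    simp only [Matrix.vecMul, dotProduct]
    rw [← Fintype.sum_subtype_add_sum_subtype E]
    have h2 : ∑ i : {i // ¬ E i}, y i.1 * toReal A i.1 j.1 = 0 :=
      Finset.sum_eq_zero fun i _ => by rw [hy2, zero_mul]
    rw [h2, add_zero]
    exact Finset.sum_congr rfl fun i _ => by rw [hy1]; rfl
  have h3 : normSq y = normSq x := by
    unfold normSq
    rw [← Fintype.sum_subtype_add_sum_subtype E]
    have h4 : ∑ i : {i // ¬ E i}, ∑ g ∈ (y i.1).coeff.support, (y i.1).coeff g ^ 2 = 0 :=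
      Finset.sum_eq_zero fun i _ => by rw [hy2]; simp
    rw [h4, add_zero]
    exact Finset.sum_congr rfl fun i _ => by rw [hy1]
  have h5 : normSq (x ᵥ* toReal (A.submatrix (Subtype.val : {i // E i} → ι)
      (Subtype.val : {j // F j} → κ))) ≤ normSq (y ᵥ* toReal A) := by
    unfold normSq
    rw [← Fintype.sum_subtype_add_sum_subtype F (fun j => ∑ g ∈ ((y ᵥ* toReal A) j).coeff.support,
      ((y ᵥ* toReal A) j).coeff g ^ 2)]
    have h6 : 0 ≤ ∑ j : {j // ¬ F j}, ∑ g ∈ ((y ᵥ* toReal A) j.1).coeff.support,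
        ((y ᵥ* toReal A) j.1).coeff g ^ 2 :=
      Finset.sum_nonneg fun j _ => Finset.sum_nonneg fun g _ => sq_nonneg _
    have h7 : ∑ j : {j // F j}, ∑ g ∈ ((x ᵥ* toReal (A.submatrix (Subtype.val : {i // E i} → ι)
        (Subtype.val : {j // F j} → κ))) j).coeff.support, ((x ᵥ* toReal (A.submatrix
        (Subtype.val : {i // E i} → ι) (Subtype.val : {j // F j} → κ))) j).coeff g ^ 2 =
        ∑ j : {j // F j}, ∑ g ∈ ((y ᵥ* toReal A) j.1).coeff.support,
        ((y ᵥ* toReal A) j.1).coeff g ^ 2 :=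
      Finset.sum_congr rfl fun j _ => by rw [h1]
    rw [h7]
    linarith
  calc _ ≤ normSq (y ᵥ* toReal A) := h5
    _ ≤ c ^ 2 * normSq y := hA y
    _ = _ := by rw [h3]

open Classical in
theorem vc_sub (S : Matrix κ κ (MonoidAlgebra ℤ G)) (E F : κ → Prop)
    (hEF : ∀ p q, S p q ≠ 0 → (E p ↔ F q)) (m : ℕ)
    (hm : min (Nat.card {p // E p}) (Nat.card {q // F q}) ≤ m)
    (hS : NormLE S (3 / Real.sqrt 2 + (1 / 2) ^ (2 * m + 30)))
    (b : Vx G {p // E p} {q // F q}) :
    IsVC (stab S (Sum.map (Prod.map id Subtype.val) (Prod.map id Subtype.val) b)) := by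
  set M := S.submatrix (Subtype.val : {i // E i} → κ) (Subtype.val : {j // F j} → κ) with hM
  have hinj : Function.Injective
      (Sum.map (Prod.map id Subtype.val) (Prod.map id Subtype.val) : Vx G {p // E p} {q // F q} →
        Vx G κ κ) :=
    Function.Injective.sumMap (Function.injective_id.prodMap Subtype.val_injective)
      (Function.injective_id.prodMap Subtype.val_injective)
  have hwt : ∀ u v : Vx G {p // E p} {q // F q}, wt S (Sum.map (Prod.map id Subtype.val)
      (Prod.map id Subtype.val) u) (Sum.map (Prod.map id Subtype.val)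
      (Prod.map id Subtype.val) v) = wt M u v := by
    intro u v
    rcases u with p | q <;> rcases v with p' | q' <;> rfl
  rw [← stab_eq M S _ hinj (fun u v => by rw [gr_adj, gr_adj, hwt]) ?_
    (fun g u => by rcases u with p | q <;> rfl) b]
  · apply vc_min
    rw [Nat.card_eq_fintype_card, Nat.card_eq_fintype_card] at hm
    have h1 := normLE_sub S _ hS E F
    refine NormLE_mono (by positivity) ?_ h1
    have h2 : ((1 : ℝ) / 2) ^ (2 * m + 30) ≤ (1 / 2) ^
        (2 * min (Fintype.card {p // E p}) (Fintype.card {q // F q}) + 30) :=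
      pow_le_pow_of_le_one (by norm_num) (by norm_num) (by omega)
    linarith
  · intro u y hy
    rw [gr_adj] at hy
    have hne : ∀ (p : G × κ) (q : G × κ), (((S p.2 q.2).coeff (p.1⁻¹ * q.1) : ℤ) : ℝ) ≠ 0 →
        (E p.2 ↔ F q.2) := by
      intro p q h
      apply hEF
      intro h0
      apply h
      rw [h0]
      simp
    rcases u with p | q <;> rcases y with p' | q'
    · exact absurd rfl hy
    · exact ⟨Sum.inr (q'.1, ⟨q'.2, (hne (p.1, p.2.1) q' hy).1 p.2.2⟩), rfl⟩
    · exact ⟨Sum.inl (p'.1, ⟨p'.2, (hne p' (q.1, q.2.1) hy).2 q.2.2⟩), rfl⟩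
    · exact absurd rfl hy

/-- **Matrices which change a parity.** -/
theorem vc_par (S : Matrix κ κ (MonoidAlgebra ℤ G)) (E : κ → Prop)
    (hE : ∀ p q, S p q ≠ 0 → (E p ↔ ¬ E q)) (m : ℕ) (hcard : Fintype.card κ = 2 * m)
    (hS : NormLE S (3 / Real.sqrt 2 + (1 / 2) ^ (2 * m + 30))) (b : Vx G κ κ) :
    IsVC (stab S b) := by
  have hc : Nat.card {p // E p} + Nat.card {q // ¬ E q} = 2 * m := by
    rw [← hcard, ← Nat.card_eq_fintype_card, ← Nat.card_sum]
    classical
    exact Nat.card_congr (Equiv.sumCompl E)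
  have h1 := vc_sub S E (fun q => ¬ E q) hE m (by omega) hS
  have h2 := vc_sub S (fun q => ¬ E q) E (fun p q h => by have := hE p q h; tauto) m (by omega) hS
  rcases b with p | q
  · by_cases h : E p.2
    · exact h1 (Sum.inl (p.1, ⟨p.2, h⟩))
    · exact h2 (Sum.inl (p.1, ⟨p.2, h⟩))
  · by_cases h : E q.2
    · exact h2 (Sum.inr (q.1, ⟨q.2, h⟩))
    · exact h1 (Sum.inr (q.1, ⟨q.2, h⟩))

end vc

end Pool.Agent.Q251.LG
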