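import Pool.Agent.Q251.LG.Lap
import Pool.Agent.Q251.LG.Par
import Pool.Agent.Q251.LG.Br

set_option autoImplicit false
set_option linter.unusedSectionVars false

/-! Quadratic Poincare complexes whose cone has norm in a window above `3 / √2`. -/

namespace Pool.Agent.Q251.LG

open Matrix TH57.Thr TH6.LF TH6.PF TH6.CX
open Pool.Agent.Q181.LR (stab_vc_of)
open Pool.Agent.Q181.LW (noTripod_inv NormLE_mono LB)

variable {Γ : Type} [Group Γ] {ι : Type} [Fintype ι] [DecidableEq ι]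

/-- The norm of the boundary operator `cone` of the mapping cone of the duality map is at most
`3 / √2` plus a number which is exponentially small (1) in the rank of the complex, or (2) in the
number `K`, where the Laplacian of the cone is at least `1 / K ^ 2`:
`‖x‖ ≤ K ‖x (cone + cone*)‖` for all `x`, or (3) in the number `K`, where the cone has a contraction of
norm at most `K`. -/
def Window (w : Γ →* ℤˣ) (deg : ι → ℕ) (n : ℕ) (d : Matrix ι ι (MonoidAlgebra ℤ Γ))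
    (ψ : ℕ → Matrix ι ι (MonoidAlgebra ℤ Γ)) : Prop :=
  NormLE (TH6.CR.cone w deg n d ψ) (3 / Real.sqrt 2 + (1 / 2) ^ (2 * Fintype.card ι + 30)) ∨
  (∃ K : ℕ, (∀ x : ι ⊕ ι → MonoidAlgebra ℝ Γ, normSq x ≤ (K : ℝ) ^ 2 *
      normSq (x ᵥ* toReal (TH6.CR.cone w deg n d ψ + adj (TH6.CR.cone w deg n d ψ)))) ∧
    NormLE (TH6.CR.cone w deg n d ψ) (3 / Real.sqrt 2 + (1 / 2) ^ (8 * K + 31))) ∨
  ∃ (K : ℕ) (t : Matrix (ι ⊕ ι) (ι ⊕ ι) (MonoidAlgebra ℤ Γ)),
    IsCt (coneDeg deg n) (TH6.CR.cone w deg n d ψ) t ∧ NormLE t K ∧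
    NormLE (TH6.CR.cone w deg n d ψ) (3 / Real.sqrt 2 + (1 / 2) ^ (8 * K + 31))

/-- After a change of the basis by group elements `u i` and up to the boundary of `χ` the quadratic
Poincare complex is the sum of quadratic Poincare complexes (`ψ'`, with contraction `t` of the cone)
over the group rings of the subgroups `C b`, which have the property `P`. -/
def SumOver (P : Subgroup Γ → Prop) (w : Γ →* ℤˣ) (deg : ι → ℕ) (n : ℕ)
    (d : Matrix ι ι (MonoidAlgebra ℤ Γ)) (ψ : ℕ → Matrix ι ι (MonoidAlgebra ℤ Γ)) : Prop :=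
  ∃ (ρ : ι → ι ⊕ ι) (u : ι → Γ) (C : ι ⊕ ι → Subgroup Γ)
    (ψ' χ : ℕ → Matrix ι ι (MonoidAlgebra ℤ Γ)),
    (∀ b, P (C b)) ∧
    TH6.CR.InBlocks ρ C ((dmU ℤ u).val * d * (dmU ℤ u)⁻¹.val) ∧
    (∀ k, TH6.CR.InBlocks ρ C (ψ' k)) ∧
    TH6.CR.IsQuadratic w deg n ((dmU ℤ u).val * d * (dmU ℤ u)⁻¹.val) ψ' ∧
    (∃ t, IsCt (coneDeg deg n)
        (TH6.CR.cone w deg n ((dmU ℤ u).val * d * (dmU ℤ u)⁻¹.val) ψ') t ∧
      TH6.CR.InBlocks (Sum.elim ρ ρ) C t) ∧
    (∀ k i j, χ k i j ≠ 0 → deg i + deg j + k = n + 1) ∧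
    ∀ k, sadj w (dmU ℤ u)⁻¹.val * ψ k * (dmU ℤ u)⁻¹.val
      = ψ' k + TH6.CR.qbd w deg n ((dmU ℤ u).val * d * (dmU ℤ u)⁻¹.val) χ k

theorem LB_of_ct' (d s : Matrix ι ι (MonoidAlgebra ℤ Γ)) (hd : d * d = 0)
    (hs : d * s + s * d = 1) (K : ℕ) (hn : NormLE s K) (c : ℝ) (hc : 0 < c) (hdc : NormLE d c) :
    LB (d + adj d) ((K : ℝ) ^ 2) := by
  rcases Nat.eq_zero_or_pos K with h0 | h0
  · subst h0
    intro x
    rw [Nat.cast_zero, zero_pow two_ne_zero, zero_mul]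
    set Q := normSq (x ᵥ* toReal (d + adj d)) with hQ
    have hQ0 : 0 ≤ Q := normSq_nonneg _
    apply le_of_forall_pos_le_add
    intro δ hδ
    set e : ℝ := min 1 (δ / (Q + 1)) with he
    have he0 : 0 < e := lt_min one_pos (by positivity)
    have he1 : e ≤ 1 := min_le_left _ _
    have he2 : e * (Q + 1) ≤ δ := by
      have : e ≤ δ / (Q + 1) := min_le_right _ _
      rwa [le_div_iff₀ (by positivity)] at this
    have hn' : NormLE s e := NormLE_mono (by simp) (by simpa using he0.le) hn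
    have h1 := LB_of_ct d s hd hs e he0 hn' c hc hdc x
    have h2 : e ^ 2 * Q ≤ e * (Q + 1) := by
      have h3 : e * Q ≤ Q + 1 := by nlinarith
      have h4 := mul_le_mul_of_nonneg_left h3 he0.le
      calc e ^ 2 * Q = e * (e * Q) := by ring
        _ ≤ _ := h4
    linarith
  · exact LB_of_ct d s hd hs K (by exact_mod_cast h0) hn c hc hdc

theorem cone_vc {w : Γ →* ℤˣ} {deg : ι → ℕ} {n : ℕ} {d : Matrix ι ι (MonoidAlgebra ℤ Γ)}
    {ψ : ℕ → Matrix ι ι (MonoidAlgebra ℤ Γ)} (h : TH6.CR.IsQuadratic w deg n d ψ)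
    (hW : Window w deg n d ψ) (b : Vx Γ (ι ⊕ ι) (ι ⊕ ι)) :
    IsVC (stab (TH6.CR.cone w deg n d ψ + adj (TH6.CR.cone w deg n d ψ)) b) := by
  have hb : IsBd (coneDeg deg n) (TH6.CR.cone w deg n d ψ) := TH6.CR.cone_boundary h
  set K := TH6.CR.cone w deg n d ψ with hK
  have hgap : ∀ k : ℕ, LB (K + adj K) ((k : ℝ) ^ 2) →
      NormLE K (3 / Real.sqrt 2 + (1 / 2) ^ (8 * k + 31)) → IsVC (stab (K + adj K) b) := by
    intro k h1 h2
    exact stab_vc_of (K + adj K) b _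
      (noTripod_inv (K + adj K) k h1 (norm_sym K hb.sq _ (by positivity) h2) b)
  rcases hW with h1 | ⟨k, h1, h2⟩ | ⟨k, t, ht, h1, h2⟩
  · refine vc_par (K + adj K) (fun p => Even (coneDeg deg n p)) ?_ (Fintype.card ι)
      (by rw [Fintype.card_sum]; ring) (norm_sym K hb.sq _ (by positivity) h1) b
    intro p q hne
    have h3 : K p q ≠ 0 ∨ K q p ≠ 0 := by
      by_contra hcon
      rw [not_or, not_not, not_not] at hcon
      apply hne
      rw [Matrix.add_apply, adj_apply, hcon.1, hcon.2, bar_zero, add_zero]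
    rcases h3 with h3 | h3
    · rw [hb.degree p q h3, Int.even_add_one]
    · rw [hb.degree q p h3, Int.even_add_one, not_not]
  · exact hgap k h1 h2
  · exact hgap k (LB_of_ct' K t hb.sq ht.eq k h1 _ (by positivity) h2) h2

/-- **Quadratic Poincare complexes in the window.** -/
theorem window_main (hno : ∀ g : Γ, g * g = 1 → g = 1) {w : Γ →* ℤˣ} {deg : ι → ℕ} {n : ℕ}
    {d : Matrix ι ι (MonoidAlgebra ℤ Γ)} {ψ : ℕ → Matrix ι ι (MonoidAlgebra ℤ Γ)}
    (h : TH6.CR.IsQuadratic w deg n d ψ)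
    (hP : ∃ t, IsCt (coneDeg deg n) (TH6.CR.cone w deg n d ψ) t) (hW : Window w deg n d ψ) :
    SumOver IsVC w deg n d ψ ∧ ((∀ g : Γ, ∀ k : ℕ, 0 < k → g ^ k = 1 → g = 1) →
      SumOver (fun C => IsCyclic C) w deg n d ψ) := by
  obtain ⟨t, ht⟩ := hP
  have hno' : ∀ g : Γ, g = g⁻¹ → g = 1 := fun g hg => hno g (by
    nth_rewrite 2 [hg]; exact mul_inv_cancel g)
  obtain ⟨ρ, u, C, ψ', χ, s, hC, h1, h2, h3, h4, h5, h6, h7⟩ :=
    TH6.CR.Q251.q_norm' (TH6.CR.half_halver w hno') h t ht (cone_vc h hW)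
  refine ⟨⟨ρ, u, C, ψ', χ, hC, h1, h2, h3, ⟨s, h4, h5⟩, h6, h7⟩, fun htf =>
    ⟨ρ, u, C, ψ', χ, fun b => ?_, h1, h2, h3, ⟨s, h4, h5⟩, h6, h7⟩⟩
  obtain ⟨g, hg⟩ := hC b
  exact isCyclic_of_finiteIndex (fun x k hk hx => Subtype.ext
    (htf x.1 k hk (by simpa using congrArg Subtype.val hx))) (Subgroup.zpowers g) inferInstance hg

end Pool.Agent.Q251.LG
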